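import Pool.Agent.helper47.CL.SpecD

/-!
# MP_d9d598_co, project CL, row NA
-/

set_option autoImplicit false

namespace Pool.Agent.helper41.CL

open Finset

theorem NA (h1 : ZB_stmt) (h2 : AZ_stmt) (h3 : YB_stmt) (h4 : NC_stmt) (h5 : EB_stmt)
    (h6 : YA_stmt) : NA_stmt := by
  intro α _ V E q hG hq hV hE hH
  have hN : #(cov V E q) = #(ind V E (q + 1)) := by
    rw [h1 α V E q hG (by omega)]
    congr 2
    omega
  rcases Nat.lt_or_ge q (#E) with hlt | hle
  · have hEq : #E = q + 1 := by omega
    rcases hH with ⟨y, hy, hye⟩ | hH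
    · -- an isolated vertex
      have hq2 : 2 ≤ q := by
        by_contra hq2
        have hq1 : q = 1 := by omega
        have hsub : E ⊆ (V.erase y).powersetCard 2 := by
          intro e he
          rw [mem_powersetCard]
          refine ⟨?_, (hG e he).2⟩
          intro x hx
          rw [mem_erase]
          refine ⟨?_, (hG e he).1 hx⟩
          intro hxy
          exact hye e he (hxy ▸ hx)
        have hc := card_le_card hsub
        rw [card_powersetCard, card_erase_of_mem hy, hV, hq1] at hc
        have : (2 * 1 + 1 - 1).choose 2 = 1 := by decide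
        omega
      have h7 := h3 α V E q y hG hq2 (by omega) hV hy hye
      rw [hN] at h7
      obtain ⟨t, rfl⟩ := Nat.exists_eq_add_of_le hq2
      rw [Nat.add_sub_cancel_left] at h7
      have e1 : 2 ^ (2 + t) = 4 * 2 ^ t := by rw [pow_add]; norm_num
      rw [e1]
      omega
    · -- no isolated vertex
      obtain ⟨D, hD1, hD2⟩ := h4 α V E hG (by omega) (by omega) (by
        intro x hx
        obtain ⟨I, hI, hxI⟩ := hH x hx
        have hI' := mem_filter.mp hI
        have hIc := mem_powersetCard.mp hI'.1
        refine ⟨V \ I, ?_, mem_sdiff.mpr ⟨hx, hxI⟩⟩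
        refine mem_filter.mpr ⟨mem_powersetCard.mpr ⟨sdiff_subset, ?_⟩, ?_⟩
        · rw [card_sdiff_of_subset hIc.1, hIc.2]
          omega
        · intro e he
          obtain ⟨z, hz, hzI⟩ := not_subset.mp (hI'.2 e he)
          exact ⟨z, hz, mem_sdiff.mpr ⟨(hG e he).1 hz, hzI⟩⟩)
      have hq2 : 2 ≤ q := by
        by_contra hq2
        have hD0 : #D = 0 := by omega
        rw [card_eq_zero] at hD0
        obtain ⟨e, he⟩ := card_pos.mp (by omega : 0 < #E)
        obtain ⟨x, _, hx⟩ := hD1 e he
        rw [hD0] at hx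
        exact notMem_empty _ hx
      have h7 := h5 α V E D hG (by omega) (by omega) hD1 hD2
      rw [hEq, Nat.add_sub_cancel, hN] at h7
      have h8 : 2 ^ (q + 1) * 13 ≤ 2 ^ (q + 1) * (q + 1 + 10) := Nat.mul_le_mul_left _ (by omega)
      rw [pow_succ] at h7 h8
      omega
  · have h7 := h2 α V E q hG hle (by omega)
    rw [hN] at h7
    omega

end Pool.Agent.helper41.CL
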