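import Pool.Agent.helper47.CL.SpecD

/-!
# MP_d9d598_co, project CL, row RD
-/

set_option autoImplicit false

namespace Pool.Agent.helper41.CL

open Finset

theorem RD (h1 : RC_stmt) (h2 : RB_stmt) (h3 : RA_stmt) : RD_stmt := by
  intro N
  induction N with
  | zero =>
    refine ⟨?_, ?_, ?_⟩
    · intro α _ V E q r _ hV hN _ hE
      exfalso
      omega
    · intro α _ V E q r _ hV hN _ hE
      exfalso
      omega
    · intro α _ V E q r _ hV hN _ hE
      exfalso
      omega
  | succ N ih =>
    obtain ⟨hA, hB, hC⟩ := ih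
    have hC' := h1 N hB hC
    have hB' := h2 N hA hB hC hC'
    exact ⟨h3 N hA hB hB', hB', hC'⟩

end Pool.Agent.helper41.CL
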