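import Pool.Agent.helper41.CL.Spec

/-!
# MP_d9d598_co, project CL, row ST
-/

set_option autoImplicit false

namespace Pool.Agent.helper41.CL

open Finset

lemma ST_common {α : Type} [DecidableEq α] (V : Finset α) (E : Finset (Finset α)) (e : ℕ)
    (hG : Gr V E) (hE : #E ≤ e) (f₀ : Finset α) (hf₀ : f₀ ∈ E) (y z : α) (hyz : y ≠ z)
    (hy : y ∈ V) (hz : z ∈ V) (h : ∀ f ∈ E, f ≠ f₀ → y ∉ f ∧ z ∉ f) :
    ∃ (E' : Finset (Finset α)) (a b y z : α), a ≠ b ∧ y ≠ z ∧ a ∈ V ∧ b ∈ V ∧ y ∈ V ∧ z ∈ V ∧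
      (∀ f ∈ E, f = {a, b} ∨ f ∈ E') ∧ (∀ f ∈ E', y ∉ f ∧ z ∉ f) ∧ #E' ≤ e - 1 ∧
      Gr (V \ {y, z}) E' := by
  obtain ⟨a, b, hab, he⟩ := card_eq_two.mp (hG f₀ hf₀).2
  have hsub := (hG f₀ hf₀).1
  have ha : a ∈ V := hsub (by rw [he]; simp)
  have hb : b ∈ V := hsub (by rw [he]; simp)
  refine ⟨E.erase f₀, a, b, y, z, hab, hyz, ha, hb, hy, hz, ?_, ?_, ?_, ?_⟩
  · intro f hf
    by_cases hff : f = f₀
    · left; rw [hff, he]
    · right; exact mem_erase.mpr ⟨hff, hf⟩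
  · intro f hf
    rw [mem_erase] at hf
    exact h f hf.2 hf.1
  · rw [card_erase_of_mem hf₀]
    omega
  · intro f hf
    rw [mem_erase] at hf
    refine ⟨?_, (hG f hf.2).2⟩
    intro x hx
    rw [mem_sdiff]
    refine ⟨(hG f hf.2).1 hx, ?_⟩
    intro hx2
    rw [mem_insert, mem_singleton] at hx2
    obtain ⟨h1, h2⟩ := h f hf.2 hf.1
    rcases hx2 with h3 | h3
    · exact h1 (h3 ▸ hx)
    · exact h2 (h3 ▸ hx)

lemma ST_zero {α : Type} [DecidableEq α] (E : Finset (Finset α)) (y : α) (h : #(inc E y) = 0)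
    (f : Finset α) (hf : f ∈ E) : y ∉ f := by
  intro hy
  rw [card_eq_zero] at h
  have : f ∈ inc E y := mem_filter.mpr ⟨hf, hy⟩
  rw [h] at this
  exact notMem_empty _ this

lemma ST_one {α : Type} [DecidableEq α] (E : Finset (Finset α)) (z : α) (h : #(inc E z) = 1)
    (f₀ : Finset α) (hf₀ : f₀ ∈ E) (hz : z ∈ f₀)
    (f : Finset α) (hf : f ∈ E) (hne : f ≠ f₀) : z ∉ f := by
  intro hzf
  have h1 : f ∈ inc E z := mem_filter.mpr ⟨hf, hzf⟩
  have h2 : f₀ ∈ inc E z := mem_filter.mpr ⟨hf₀, hz⟩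
  exact hne (card_le_one.mp h.le f h1 f₀ h2)

theorem ST (h1 : SD_stmt) : ST_stmt := by
  intro α _ V E e hG he hE hV
  have hsum := h1 α V E hG
  rcases E.eq_empty_or_nonempty with hE0 | ⟨f₀, hf₀⟩
  · have h2 : 1 < #V := by omega
    obtain ⟨y, hy, z, hz, hyz⟩ := one_lt_card.mp h2
    refine ⟨∅, y, z, y, z, hyz, hyz, hy, hz, hy, hz, ?_, ?_, ?_, ?_⟩
    · intro f hf
      rw [hE0] at hf
      exact absurd hf (notMem_empty _)
    · intro f hf
      exact absurd hf (notMem_empty _)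
    · simp
    · intro f hf
      exact absurd hf (notMem_empty _)
  · have hf₀card := (hG f₀ hf₀).2
    obtain ⟨a, b, hab, hf₀e⟩ := card_eq_two.mp hf₀card
    have haf : a ∈ f₀ := by rw [hf₀e]; simp
    have hbf : b ∈ f₀ := by rw [hf₀e]; simp
    have ha : a ∈ V := (hG f₀ hf₀).1 haf
    have hb : b ∈ V := (hG f₀ hf₀).1 hbf
    by_cases hZ2 : ∃ y ∈ V, ∃ z ∈ V, y ≠ z ∧ #(inc E y) = 0 ∧ #(inc E z) = 0
    · obtain ⟨y, hy, z, hz, hyz, hy0, hz0⟩ := hZ2
      exact ST_common V E e hG hE f₀ hf₀ y z hyz hy hz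
        (fun f hf _ => ⟨ST_zero E y hy0 f hf, ST_zero E z hz0 f hf⟩)
    · by_cases hZ1 : ∃ y ∈ V, #(inc E y) = 0
      · obtain ⟨y, hy, hy0⟩ := hZ1
        have hz1 : ∃ z ∈ V, #(inc E z) = 1 := by
          by_contra hno
          push Not at hno
          have h3 : ∀ x ∈ V.erase y, 2 ≤ #(inc E x) := by
            intro x hx
            rw [mem_erase] at hx
            have h4 := hno x hx.2
            have h5 : #(inc E x) ≠ 0 := by
              intro h6
              exact hZ2 ⟨y, hy, x, hx.2, fun h7 => hx.1 h7.symm, hy0, h6⟩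
            omega
          have h8 : ∑ _x ∈ V.erase y, 2 ≤ ∑ x ∈ V.erase y, #(inc E x) := sum_le_sum h3
          have h9 : #(inc E y) + ∑ x ∈ V.erase y, #(inc E x) = ∑ x ∈ V, #(inc E x) :=
            add_sum_erase V (fun x => #(inc E x)) hy
          rw [sum_const, smul_eq_mul, card_erase_of_mem hy] at h8
          have h10 : a ∈ V.erase y := by
            rw [mem_erase]
            refine ⟨?_, ha⟩
            intro h11
            exact ST_zero E y hy0 f₀ hf₀ (h11 ▸ haf)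
          have h12 := h3 a h10
          have h13 : #(inc E a) ≤ #E := card_le_card (filter_subset _ _)
          omega
        obtain ⟨z, hz, hz1⟩ := hz1
        obtain ⟨f₁, hf₁⟩ := card_eq_one.mp hz1
        have hf₁m : f₁ ∈ inc E z := by rw [hf₁]; simp
        have hf₁m' := mem_filter.mp hf₁m
        have hyz : y ≠ z := by
          intro h14
          rw [h14] at hy0
          omega
        exact ST_common V E e hG hE f₁ hf₁m'.1 y z hyz hy hz
          (fun f hf hne => ⟨ST_zero E y hy0 f hf, ST_one E z hz1 f₁ hf₁m'.1 hf₁m'.2 f hf hne⟩)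
      · have h3 : ∀ x ∈ V, 1 ≤ #(inc E x) := by
          intro x hx
          have h4 : #(inc E x) ≠ 0 := fun h5 => hZ1 ⟨x, hx, h5⟩
          omega
        have h6 : ∑ _x ∈ V, 1 ≤ ∑ x ∈ V, #(inc E x) := sum_le_sum h3
        have h7 : ∑ _x ∈ V, 1 = ∑ x ∈ V, #(inc E x) := by
          rw [sum_const, smul_eq_mul, mul_one] at h6 ⊢
          omega
        have h8 := (sum_eq_sum_iff_of_le h3).mp h7
        exact ST_common V E e hG hE f₀ hf₀ a b hab ha hb
          (fun f hf hne => ⟨ST_one E a (h8 a ha).symm f₀ hf₀ haf f hf hne,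
            ST_one E b (h8 b hb).symm f₀ hf₀ hbf f hf hne⟩)

end Pool.Agent.helper41.CL
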